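import Pool.Agent.Helper22.FF.Sect

/-!
# Part I: assembly of the `p`-adic data
-/

set_option autoImplicit false

namespace Pool.Agent.Helper22.FF

open Pool.Agent.Helper14.BSC Polynomial Pool.Agent.Helper60.FF Pool.Agent.Helper18.FF3

theorem pi_lift (F L : Type) [Field F] [Field L] [Algebra F L] [Algebra.IsAlgebraic F L] (p : ℕ)
    [Fact p.Prime] (σ₀ : F →+* ℂ_[p]) : ∃ ι₀ : L →+* ℂ_[p], ∀ a, ι₀ (algebraMap F L a) = σ₀ a := by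
  letI : Algebra F ℂ_[p] := σ₀.toAlgebra
  refine ⟨(IsAlgClosed.lift : L →ₐ[F] ℂ_[p]).toRingHom, fun a => ?_⟩
  exact (IsAlgClosed.lift : L →ₐ[F] ℂ_[p]).commutes a

theorem pi_alg (F L : Type) [Field F] [Field L] [Algebra F L] [Algebra.IsAlgebraic F L] (p : ℕ)
    [Fact p.Prime] (ι₀ : L →+* ℂ_[p]) (E : IntermediateField ℚ_[p] ℂ_[p]) (hE : FiniteDimensional ℚ_[p] E)
    (h : ∀ a : F, ι₀ (algebraMap F L a) ∈ E) (b : L) : IsAlgebraic ℚ_[p] (ι₀ b) := by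
  obtain ⟨G, hG, hGb⟩ := Algebra.IsAlgebraic.isAlgebraic (R := F) b
  let φ : F →+* E := (ι₀.comp (algebraMap F L)).codRestrict E.toSubfield h
  have h1 : IsAlgebraic E (ι₀ b) := by
    refine ⟨G.map φ, (Polynomial.map_ne_zero_iff φ.injective).2 hG, ?_⟩
    rw [aeval_def, eval₂_map]
    have h2 : (algebraMap E ℂ_[p]).comp φ = ι₀.comp (algebraMap F L) := RingHom.ext fun _ => rfl
    rw [h2, ← hom_eval₂]
    rw [aeval_def] at hGb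
    rw [hGb, map_zero]
  haveI := hE
  haveI : Algebra.IsAlgebraic ℚ_[p] E := Algebra.IsAlgebraic.of_finite ℚ_[p] E
  exact h1.restrictScalars ℚ_[p]

section

variable {F k Ω : Type} [Field F] [Field k] [Field Ω] [Algebra F Ω] [Algebra k Ω]
  [Algebra (RatFunc F) k] {p : ℕ} [Fact p.Prime]

theorem pi_fin {ι₀ : Acl F Ω →+* ℂ_[p]} {S : Set (Acl F Ω)} {τ : ℂ_[p]}
    (hf : (TT k ι₀ S τ).Finite)
    (h1 : ∀ σ ∈ T0 k ι₀ τ, ∃! σ' : kS k S →+* ℂ_[p],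
      σ' ∈ TT k ι₀ S τ ∧ ∀ c : k, σ' (algebraMap k (kS k S) c) = σ c) : (T0 k ι₀ τ).Finite := by
  refine (hf.image fun σ' => σ'.comp (algebraMap k (kS k S))).subset ?_
  intro σ hσ
  obtain ⟨σ', ⟨h2, h3⟩, _⟩ := h1 σ hσ
  exact ⟨σ', h2, RingHom.ext h3⟩

theorem pi_prod {ι₀ : Acl F Ω →+* ℂ_[p]} {S : Set (Acl F Ω)} {τ : ℂ_[p]} {M : Type} [CommMonoid M]
    (hf : (TT k ι₀ S τ).Finite)
    (h1 : ∀ σ ∈ T0 k ι₀ τ, ∃! σ' : kS k S →+* ℂ_[p],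
      σ' ∈ TT k ι₀ S τ ∧ ∀ c : k, σ' (algebraMap k (kS k S) c) = σ c)
    (h2 : ∀ σ' ∈ TT k ι₀ S τ, σ'.comp (algebraMap k (kS k S)) ∈ T0 k ι₀ τ)
    (h₀ : (T0 k ι₀ τ).Finite) (G : (k →+* ℂ_[p]) → M) :
    ∏ σ ∈ h₀.toFinset, G σ = ∏ σ' ∈ hf.toFinset, G (σ'.comp (algebraMap k (kS k S))) := by
  symm
  refine Finset.prod_bij (fun σ' _ => σ'.comp (algebraMap k (kS k S))) ?_ ?_ ?_ ?_
  · intro σ' hσ'
    exact h₀.mem_toFinset.2 (h2 σ' (hf.mem_toFinset.1 hσ'))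
  · intro σ' hσ' σ'' hσ'' heq
    obtain ⟨ρ, _, hρ⟩ := h1 _ (h2 σ' (hf.mem_toFinset.1 hσ'))
    rw [hρ σ' ⟨hf.mem_toFinset.1 hσ', fun _ => rfl⟩,
      hρ σ'' ⟨hf.mem_toFinset.1 hσ'', fun c => (RingHom.congr_fun heq c).symm⟩]
  · intro σ hσ
    obtain ⟨σ', ⟨h3, h4⟩, _⟩ := h1 σ (h₀.mem_toFinset.1 hσ)
    exact ⟨σ', hf.mem_toFinset.2 h3, RingHom.ext h4⟩
  · intro σ' _
    rfl

theorem pi_card {ι₀ : Acl F Ω →+* ℂ_[p]} {S : Set (Acl F Ω)} {τ : ℂ_[p]}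
    (hf : (TT k ι₀ S τ).Finite)
    (h1 : ∀ σ ∈ T0 k ι₀ τ, ∃! σ' : kS k S →+* ℂ_[p],
      σ' ∈ TT k ι₀ S τ ∧ ∀ c : k, σ' (algebraMap k (kS k S) c) = σ c)
    (h2 : ∀ σ' ∈ TT k ι₀ S τ, σ'.comp (algebraMap k (kS k S)) ∈ T0 k ι₀ τ)
    (h₀ : (T0 k ι₀ τ).Finite) : h₀.toFinset.card = hf.toFinset.card := by
  have h3 := pi_prod (M := Multiplicative ℕ) hf h1 h2 h₀ (fun _ => Multiplicative.ofAdd 1)
  rw [Finset.prod_const, Finset.prod_const, ← ofAdd_nsmul, ← ofAdd_nsmul] at h3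
  have h4 := Multiplicative.ofAdd.injective h3
  simpa using h4

theorem pi_chi (D : Sec k Ω) (t : LL D) {ι₀ : Acl F Ω →+* ℂ_[p]} {τ : ℂ_[p]}
    (h₀ : (T0 k ι₀ τ).Finite) : chi D t ι₀ τ ≠ 0 ∧ (chi D t ι₀ τ).natDegree ≤ h₀.toFinset.card := by
  unfold chi
  rw [dif_pos h₀]
  refine ⟨Finset.prod_ne_zero_iff.2 fun σ _ => (psi_ne D t σ).1, ?_⟩
  refine (natDegree_prod_le _ _).trans ?_
  refine (Finset.sum_le_card_nsmul _ _ 1 fun σ _ => (psi_ne D t σ).2).trans ?_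
  simp

end

theorem pi_NNle {F k Ω : Type} [Field F] [Field k] [Field Ω] [Algebra F Ω] [Algebra k Ω] (D : Sec k Ω)
    {S S' : Set (Acl F Ω)} (h : S ⊆ S') : NN D (upS k S) ≤ NN D (upS k S') :=
  NN_le D fun _ hg a ha => hg a (upS_mono h ha)

theorem pi_acl {F k Ω : Type} [Field F] [Field k] [Field Ω] [Algebra F Ω] [Algebra k Ω]
    [Algebra (RatFunc F) k] (hU : FU F k Ω) (S : Set (Acl F Ω)) : kS k S ≤ Acl k Ω := by
  unfold kS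
  rw [IntermediateField.adjoin_le_iff]
  rintro _ ⟨s, _, rfl⟩
  show (s : Ω) ∈ algebraicClosure k Ω
  rw [mem_algebraicClosure_iff']
  obtain ⟨G, hG, hGs⟩ := mem_algebraicClosure_iff.1 s.2
  let φ : F →+* k := (algebraMap (RatFunc F) k).comp RatFunc.C
  refine IsAlgebraic.isIntegral ⟨G.map φ, (Polynomial.map_ne_zero_iff φ.injective).2 hG, ?_⟩
  rw [aeval_def, eval₂_map]
  have h2 : (algebraMap k Ω).comp φ = algebraMap F Ω := RingHom.ext fun a => (hU.com a).symm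
  rw [h2, ← aeval_def]
  exact hGs

theorem pi_const {F k Ω : Type} [Field F] [Field k] [CharZero k] [Field Ω] [Algebra F Ω] [Algebra k Ω]
    [IsAlgClosed Ω] [Algebra (RatFunc F) k] (hBOT : ST_BOT) (hU : FU F k Ω) (D : Sec k Ω) (t : LL D)
    (ht : ∀ c : k, t ≠ algebraMap k (LL D) c) (S : Set (Acl F Ω)) : (t : Ω) ∉ kS k S := by
  intro h
  have h1 : (t : Ω) ∈ Acl k Ω := pi_acl hU S h
  have h2 : (⟨(t : Ω), h1⟩ : Acl k Ω) ∈ FF (∅ : Set (Acl k Ω)) := by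
    rw [← coe_mem_NN (D := D)]
    exact t.2
  obtain ⟨c, hc⟩ := hBOT k Ω _ h2
  have h3 : (t : Ω) = algebraMap k Ω c := congrArg (fun a : Acl k Ω => (a : Ω)) hc
  exact ht c (Subtype.ext h3)

/-- the data used in the assembly -/
structure Dat (F k Ω : Type) [Field F] [Field k] [Field Ω] [Algebra F Ω] [Algebra k Ω]
    [Algebra (RatFunc F) k] (D : Sec k Ω) (t : LL D) (p : ℕ) [Fact p.Prime] where
  ι₀ : Acl F Ω →+* ℂ_[p]
  E₀ : IntermediateField ℚ_[p] ℂ_[p]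
  fin : FiniteDimensional ℚ_[p] E₀
  hE₀ : ∀ a : F, ι₀ (algebraMap F (Acl F Ω) a) ∈ E₀
  A : Subfield ℂ_[p]
  hA : ∀ x, x ∈ A ↔ ∃ a, ι₀ a = x
  ι : F →+* A
  hι : ∀ a, ((ι a : A) : ℂ_[p]) = ι₀ (algebraMap F (Acl F Ω) a)
  j : RatFunc A →+* Ω
  N : kS k (Set.univ : Set (Acl F Ω)) → RatFunc A
  jmp : ∀ c : RatFunc F, j (mp ι c) = algebraMap k Ω (algebraMap (RatFunc F) k c)
  Nmul : ∀ x y, N (x * y) = N x * N y
  N0 : ∀ x, x ≠ 0 → N x ≠ 0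
  Nk : ∀ x : k, N (algebraMap k (kS k (Set.univ : Set (Acl F Ω))) x) = mp ι (Algebra.norm (RatFunc F) x)
  NE : ∀ E : IntermediateField ℚ_[p] ℂ_[p], (∀ a : F, ι₀ (algebraMap F (Acl F Ω) a) ∈ E) →
    ∀ S : Set (Acl F Ω), (∀ s ∈ S, ι₀ s ∈ E) → ∀ (x : Ω) (hx : x ∈ kS k S),
      Ov A E (N ⟨x, kS_univ S hx⟩)
  Nτ : ∀ (τ : ℂ_[p]), τ ∉ A → ∀ S : Set (Acl F Ω), ∃ hf : (TT k ι₀ S τ).Finite,
    hf.toFinset.card = Module.finrank (RatFunc F) k ∧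
    (∀ (x : Ω) (hx : x ∈ kS k S), ev A τ (N ⟨x, kS_univ S hx⟩) = ∏ σ ∈ hf.toFinset, σ ⟨x, hx⟩) ∧
    (∀ σ ∈ T0 k ι₀ τ, ∃! σ' : kS k S →+* ℂ_[p],
      σ' ∈ TT k ι₀ S τ ∧ ∀ c : k, σ' (algebraMap k (kS k S) c) = σ c) ∧
    ∀ σ' ∈ TT k ι₀ S τ, σ'.comp (algebraMap k (kS k S)) ∈ T0 k ι₀ τ
  S : RatFunc A → Set (Acl F Ω)
  Sfin : ∀ c, (S c).Finite
  SE : ∀ c, ∀ E : IntermediateField ℚ_[p] ℂ_[p], Ov A E c → ∀ s ∈ S c, ι₀ s ∈ E
  SF : ∀ c, ∀ c₀ : RatFunc F, c = mp ι c₀ → ∀ s ∈ S c, ∃ a : F, algebraMap F (Acl F Ω) a = s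
  Sj : ∀ c, ∀ S' : Set (Acl F Ω), S c ⊆ S' → j c ∈ kS k S' ∧
    ∀ τ : ℂ_[p], τ ∉ A → ∀ σ ∈ TT k ι₀ S' τ, ∀ h : j c ∈ kS k S', σ ⟨j c, h⟩ = ev A τ c
  e : ℕ → RatFunc A → Ω
  g : ℕ → RatFunc A → Ω
  he : ∀ m c, 0 < m → e m c ∈ kS k (S c) ∧ e m c ≠ 0
  hg : ∀ m c, 0 < m → g m c ∈ NN D (upS k (S c)) ∧ g m c ≠ 0
  heq : ∀ m c, 0 < m → (t : Ω) - j c = e m c * g m c ^ m

theorem exists_dat (hEMB : ST_EMB) (hBOT : ST_BOT) (hNORM : ST_NORM) (hCF : ST_CF) (hKU : ST_KU)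
    (F k Ω : Type) [Field F] [CharZero F] [Field k] [Field Ω] [Algebra F Ω] [Algebra k Ω] [CharZero k]
    [IsAlgClosed Ω] [Algebra (RatFunc F) k] [FiniteDimensional (RatFunc F) k]
    (hfg : (⊤ : IntermediateField ℚ F).FG) (hU : FU F k Ω) (D : Sec k Ω) (t : LL D)
    (ht : ∀ c : k, t ≠ algebraMap k (LL D) c) (p : ℕ) [Fact p.Prime] : Nonempty (Dat F k Ω D t p) := by
  obtain ⟨σ₀, E₀, hE₀, hσ₀⟩ := hEMB F hfg p
  obtain ⟨ι₀, hι₀⟩ := pi_lift F (Acl F Ω) p σ₀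
  have hE₀' : ∀ a : F, ι₀ (algebraMap F (Acl F Ω) a) ∈ E₀ := fun a => by rw [hι₀]; exact hσ₀ a
  have hA : ∀ x, x ∈ ι₀.fieldRange ↔ ∃ a, ι₀ a = x := fun x => RingHom.mem_fieldRange
  let ι : F →+* ι₀.fieldRange := ι₀.rangeRestrictField.comp (algebraMap F (Acl F Ω))
  have hι : ∀ a, ((ι a : ι₀.fieldRange) : ℂ_[p]) = ι₀ (algebraMap F (Acl F Ω) a) := fun a => rfl
  obtain ⟨j, N, hjX, hjC, hjM, hjmp, hNmul, hN0, hNk, hNE, hNτ⟩ :=
    hNORM F k Ω hU p ι₀ ι₀.fieldRange hA ι hι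
  choose Sc hScfin hScE hScF hScj using hCF F k Ω hU p ι₀ ι₀.fieldRange hA ι hι j hjX hjC
  have key : ∀ (m : ℕ) (c : RatFunc ι₀.fieldRange), ∃ e g : Ω, 0 < m → (e ∈ kS k (Sc c) ∧ e ≠ 0) ∧
      (g ∈ NN D (upS k (Sc c)) ∧ g ≠ 0) ∧ (t : Ω) - j c = e * g ^ m := by
    intro m c
    by_cases hm : 0 < m
    · obtain ⟨h1, h2, _⟩ := hKU F k Ω hU D (Sc c)
      have h3 : (t : Ω) - j c ∈ NN D (upS k (Sc c)) := by
        refine sub_mem ?_ (h1 _ (hScj c (Sc c) (le_refl _)).1)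
        exact NN_le D (S := ∅) (fun _ _ a ha => ha.elim) t.2
      have h4 : (t : Ω) - j c ≠ 0 := by
        intro h0
        have h5 : (t : Ω) = j c := sub_eq_zero.1 h0
        exact pi_const hBOT hU D t ht (Sc c) (h5 ▸ (hScj c (Sc c) (le_refl _)).1)
      obtain ⟨e, g, he, he0, hg, hg0, heq⟩ := h2 _ h3 h4 m hm
      exact ⟨e, g, fun _ => ⟨⟨he, he0⟩, ⟨hg, hg0⟩, heq⟩⟩
    · exact ⟨1, 1, fun h => absurd h hm⟩
  choose e g heg using key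
  exact ⟨{
    ι₀ := ι₀
    E₀ := E₀
    fin := hE₀
    hE₀ := hE₀'
    A := ι₀.fieldRange
    hA := hA
    ι := ι
    hι := hι
    j := j
    N := N
    jmp := hjmp
    Nmul := hNmul
    N0 := hN0
    Nk := hNk
    NE := hNE
    Nτ := hNτ
    S := Sc
    Sfin := hScfin
    SE := hScE
    SF := hScF
    Sj := hScj
    e := e
    g := g
    he := fun m c hm => (heg m c hm).1
    hg := fun m c hm => (heg m c hm).2.1
    heq := fun m c hm => (heg m c hm).2.2 }⟩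

section

variable {F k Ω : Type} [Field F] [CharZero F] [Field k] [Field Ω] [Algebra F Ω] [Algebra k Ω]
  [CharZero k] [IsAlgClosed Ω] [Algebra (RatFunc F) k] [FiniteDimensional (RatFunc F) k]
  {D : Sec k Ω} {t : LL D} {p : ℕ} [Fact p.Prime] (d : Dat F k Ω D t p)

namespace Dat

theorem N1 : d.N 1 = 1 := by
  have h := d.Nmul 1 1
  rw [mul_one] at h
  exact mul_right_cancel₀ (d.N0 1 one_ne_zero) (by rw [one_mul]; exact h.symm)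

theorem Npow (x : kS k (Set.univ : Set (Acl F Ω))) (m : ℕ) : d.N (x ^ m) = d.N x ^ m := by
  induction m with
  | zero => rw [pow_zero, pow_zero, d.N1]
  | succ m ih => rw [pow_succ, pow_succ, d.Nmul, ih]

open Classical in
/-- the norm of the Kummer class -/
noncomputable def H (m : ℕ) (c : RatFunc d.A) : RatFunc d.A :=
  if h : 0 < m then d.N ⟨d.e m c, kS_univ _ (d.he m c h).1⟩ else 1

theorem H_pos {m : ℕ} (h : 0 < m) (c : RatFunc d.A) :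
    d.H m c = d.N ⟨d.e m c, kS_univ _ (d.he m c h).1⟩ := dif_pos h

theorem H0 {m : ℕ} (h : 0 < m) (c : RatFunc d.A) : d.H m c ≠ 0 := by
  rw [d.H_pos h]
  refine d.N0 _ fun h1 => (d.he m c h).2 (congrArg Subtype.val h1)

theorem cls (hU : FU F k Ω) (hKU : ST_KU) (m m' : ℕ) (c : RatFunc d.A) (hm : 0 < m) (hm' : 0 < m') :
    ∃ g : RatFunc d.A, d.H (m * m') c = d.H m c * g ^ m := by
  have hmm : 0 < m * m' := Nat.mul_pos hm hm'
  obtain ⟨h1, _, h3⟩ := hKU F k Ω hU D (d.S c)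
  have e1 := (d.he (m * m') c hmm)
  have e2 := (d.he m c hm)
  have g1 := (d.hg (m * m') c hmm)
  have g2 := (d.hg m c hm)
  have q1 := d.heq (m * m') c hmm
  have q2 := d.heq m c hm
  have hy : d.g m c / d.g (m * m') c ^ m' ∈ NN D (upS k (d.S c)) :=
    div_mem g2.1 (pow_mem g1.1 _)
  have hym : (d.g m c / d.g (m * m') c ^ m') ^ m = d.e (m * m') c / d.e m c := by
    have h4 : d.e (m * m') c * d.g (m * m') c ^ (m * m') = d.e m c * d.g m c ^ m := by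
      rw [← q1, ← q2]
    have h5 := g1.2
    have h6 := e2.2
    rw [div_pow, ← pow_mul, mul_comm m' m, div_eq_div_iff (pow_ne_zero _ h5) h6]
    linear_combination -h4
  have hyk : d.g m c / d.g (m * m') c ^ m' ∈ kS k (d.S c) := by
    refine h3 _ hy m hm ?_
    rw [hym]
    exact div_mem e1.1 e2.1
  refine ⟨d.N ⟨_, kS_univ _ hyk⟩, ?_⟩
  rw [d.H_pos hmm, d.H_pos hm, ← d.Npow, ← d.Nmul]
  congr 1
  apply Subtype.ext
  show d.e (m * m') c = d.e m c * (d.g m c / d.g (m * m') c ^ m') ^ m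
  rw [hym, mul_div_cancel₀ _ e2.2]

theorem kum (hU : FU F k Ω) (hKMR : ST_KMR) (ht : ∀ c : k, t ≠ algebraMap k (LL D) c)
    (E : IntermediateField ℚ_[p] ℂ_[p]) (hE : FiniteDimensional ℚ_[p] E) (hE₀ : d.E₀ ≤ E)
    (c c' : RatFunc d.A) (hc : Ov d.A E c) (hc' : Ov d.A E c') (τ : ℂ_[p]) (hτ : τ ∈ E) (hτA : τ ∉ d.A)
    (m : ℕ) (hm : 0 < m) (h1 : (chi D t d.ι₀ τ).eval (ev d.A τ c) ≠ 0)
    (h2 : (chi D t d.ι₀ τ).eval (ev d.A τ c') ≠ 0) :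
    ∃ w ∈ E, w ≠ 0 ∧ (chi D t d.ι₀ τ).eval (ev d.A τ c) * ev d.A τ (d.H m c') =
      (chi D t d.ι₀ τ).eval (ev d.A τ c') * ev d.A τ (d.H m c) * w ^ m := by
  obtain ⟨hf, _, hprod, hex, hres⟩ := d.Nτ τ hτA (d.S c ∪ d.S c')
  have hι : ∀ a : F, d.ι₀ (algebraMap F (Acl F Ω) a) ∈ E := fun a => hE₀ (d.hE₀ a)
  have hSc : d.S c ⊆ d.S c ∪ d.S c' := Set.subset_union_left
  have hSc' : d.S c' ⊆ d.S c ∪ d.S c' := Set.subset_union_right
  have hS : ∀ s ∈ d.S c ∪ d.S c', d.ι₀ s ∈ E := by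
    rintro s (hs | hs)
    · exact d.SE c E hc s hs
    · exact d.SE c' E hc' s hs
  obtain ⟨jc, jcv⟩ := d.Sj c _ hSc
  obtain ⟨jc', jcv'⟩ := d.Sj c' _ hSc'
  have he := d.he m c hm
  have he' := d.he m c' hm
  have hek : d.e m c ∈ kS k (d.S c ∪ d.S c') := kS_mono hSc he.1
  have hek' : d.e m c' ∈ kS k (d.S c ∪ d.S c') := kS_mono hSc' he'.1
  obtain ⟨w, hw, hw0, heq⟩ := hKMR F k Ω hU D t ht p d.ι₀ E hE hι τ hτ (d.S c ∪ d.S c')
    ((d.Sfin c).union (d.Sfin c')) hS hf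
    (fun G h₀ => pi_prod hf hex hres h₀ G) (pi_fin hf hex)
    ⟨d.j c, jc⟩ ⟨d.j c', jc'⟩ ⟨d.e m c, hek⟩ ⟨d.e m c', hek'⟩ (d.g m c) (d.g m c')
    (ev d.A τ c) (ev d.A τ c') m hm (fun h => he.2 (congrArg Subtype.val h))
    (fun h => he'.2 (congrArg Subtype.val h)) (pi_NNle D hSc (d.hg m c hm).1)
    (pi_NNle D hSc' (d.hg m c' hm).1) (d.heq m c hm) (d.heq m c' hm)
    (fun σ' hσ' => jcv τ hτA σ' hσ' jc) (fun σ' hσ' => jcv' τ hτA σ' hσ' jc') h1 h2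
  refine ⟨w, hw, hw0, ?_⟩
  rw [d.H_pos hm, d.H_pos hm]
  have h3 := hprod (d.e m c) hek
  have h4 := hprod (d.e m c') hek'
  rw [h3, h4]
  exact heq

end Dat

end

theorem st_PI (hEMB : ST_EMB) (hBOT : ST_BOT) (hNORM : ST_NORM) (hCF : ST_CF) (hKU : ST_KU)
    (hCHE : ST_CHE) (hKMR : ST_KMR) (hCTB : ST_CTB) : ST_PI := by
  intro F k Ω _ _ _ _ _ _ _ _ _ hfg hAC D t ht p _ hPP
  letI aFΩ : Algebra F Ω :=
    (((algebraMap k Ω).comp (algebraMap (RatFunc F) k)).comp RatFunc.C).toAlgebra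
  have hU : FU F k Ω := ⟨fun a => rfl, hAC⟩
  obtain ⟨d⟩ := exists_dat hEMB hBOT hNORM hCF hKU F k Ω hfg hU D t ht p
  haveI : Countable (Acl F Ω) := hCTB F Ω hfg
  haveI : Algebra.IsAlgebraic F (Acl F Ω) := inferInstance
  have hmem : ∀ a : Acl F Ω, d.ι₀ a ∈ d.A := fun a => (d.hA _).2 ⟨a, rfl⟩
  have hAcl : IsAlgClosed d.A := by
    haveI : IsAlgClosed (Acl F Ω) := IsAlgClosure.isAlgClosed F
    let φ : Acl F Ω →+* d.A := d.ι₀.codRestrict d.A hmem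
    have hφ : Function.Bijective φ := by
      refine ⟨φ.injective, fun x => ?_⟩
      obtain ⟨a, ha⟩ := (d.hA _).1 x.2
      exact ⟨a, Subtype.ext ha⟩
    exact IsAlgClosed.of_ringEquiv _ _ (RingEquiv.ofBijective φ hφ)
  have hcard : ∀ τ : ℂ_[p], τ ∉ d.A → ∃ h₀ : (T0 k d.ι₀ τ).Finite,
      h₀.toFinset.card = Module.finrank (RatFunc F) k := by
    intro τ hτ
    obtain ⟨hf, hc, _, hex, hres⟩ := d.Nτ τ hτ ∅
    exact ⟨pi_fin hf hex, (pi_card hf hex hres _).trans hc⟩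
  let K : KD p (Module.finrank (RatFunc F) k) :=
    { A := d.A
      cnt := by
        have h1 : (d.A : Set ℂ_[p]) = Set.range d.ι₀ := by
          ext x
          exact d.hA x
        rw [h1]
        exact Set.countable_range _
      alg := by
        intro a ha
        obtain ⟨b, rfl⟩ := (d.hA _).1 ha
        exact pi_alg F (Acl F Ω) p d.ι₀ d.E₀ d.fin d.hE₀ b
      acl := hAcl
      E₀ := d.E₀
      fin₀ := d.fin
      χ := fun τ => chi D t d.ι₀ τ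
      H := d.H
      χ0 := by
        intro τ _ hτ
        obtain ⟨h₀, hc⟩ := hcard τ hτ
        obtain ⟨h1, h2⟩ := pi_chi D t h₀
        exact ⟨h1, hc ▸ h2⟩
      χE := by
        intro E hE hE₀ τ hτ hτA i
        obtain ⟨h₀, _⟩ := hcard τ hτA
        exact hCHE F k Ω hU D t p d.ι₀ E hE (fun a => hE₀ (d.hE₀ a)) τ hτ h₀ i
      H0 := fun m c hm => d.H0 hm c
      Hdef := by
        intro E hE hE₀ m c hm hc
        rw [d.H_pos hm]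
        exact d.NE E (fun a => hE₀ (d.hE₀ a)) (d.S c) (d.SE c E hc) _ (d.he m c hm).1
      cls := fun m m' c hm hm' => d.cls hU hKU m m' c hm hm'
      kum := by
        intro E hE hE₀ c c' hc hc' τ hτ hτA m hm h1 h2
        exact d.kum hU hKMR ht E hE hE₀ c c' hc hc' τ hτ hτA m hm h1 h2 }
  refine ⟨K, ⟨{ ι := d.ι, alg := ?_, nrm := ?_ }⟩⟩
  · rintro ⟨a, ha⟩
    obtain ⟨b, rfl⟩ := (d.hA _).1 ha
    obtain ⟨G, hG, hGb⟩ := Algebra.IsAlgebraic.isAlgebraic (R := F) b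
    refine ⟨G, hG, ?_⟩
    apply Subtype.ext
    have h2 : (d.A.subtype).comp d.ι = d.ι₀.comp (algebraMap F (Acl F Ω)) := RingHom.ext d.hι
    have h3 : (d.A.subtype) (G.eval₂ d.ι ⟨d.ι₀ b, ha⟩) = 0 := by
      rw [hom_eval₂, h2]
      show eval₂ (d.ι₀.comp (algebraMap F (Acl F Ω))) (d.ι₀ b) G = 0
      rw [← hom_eval₂, ← aeval_def, hGb, map_zero]
    exact h3
  · intro m c hm
    have hS0 : upS k (d.S (mp d.ι c)) ⊆ {a | ∃ x : k, algebraMap k (Acl k Ω) x = a} := by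
      rintro a ⟨s, hs, hsa⟩
      obtain ⟨b, hb⟩ := d.SF _ c rfl s hs
      refine ⟨algebraMap (RatFunc F) k (RatFunc.C b), Subtype.ext ?_⟩
      rw [← hsa, ← hb]
      exact (hU.com b).symm
    have hNN : ∀ x : Ω, x ∈ NN D (upS k (d.S (mp d.ι c))) → x ∈ LL D := by
      intro x hx g _
      refine hx g fun a ha => ?_
      obtain ⟨b, rfl⟩ := hS0 ha
      exact g.commutes b
    have hkS : ∀ x : Ω, x ∈ kS k (d.S (mp d.ι c)) → ∃ b : k, algebraMap k Ω b = x := by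
      intro x hx
      have h1 : kS k (d.S (mp d.ι c)) ≤ ⊥ := by
        unfold kS
        rw [IntermediateField.adjoin_le_iff]
        rintro _ ⟨s, hs, rfl⟩
        obtain ⟨b, hb⟩ := d.SF _ c rfl s hs
        rw [← hb]
        refine IntermediateField.mem_bot.2 ⟨algebraMap (RatFunc F) k (RatFunc.C b), ?_⟩
        exact (hU.com b).symm
      exact IntermediateField.mem_bot.1 (h1 hx)
    have he := d.he m (mp d.ι c) hm
    obtain ⟨e₀, he₀⟩ := hkS _ he.1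
    refine ⟨e₀, ⟨d.g m (mp d.ι c), hNN _ (d.hg m (mp d.ι c) hm).1⟩, ?_, ?_, ?_⟩
    · rintro rfl
      rw [map_zero] at he₀
      exact he.2 he₀.symm
    · apply Subtype.ext
      have h1 := d.heq m (mp d.ι c) hm
      rw [d.jmp, ← he₀] at h1
      exact h1
    · show d.H m (mp d.ι c) = _
      rw [d.H_pos hm, ← d.Nk]
      congr 1
      exact Subtype.ext he₀.symm

end Pool.Agent.Helper22.FF
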