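import Pool.Agent.Helper18.FF3.Stmts

/-!
# Part I of the theorem on birational sections over function fields: general statements

`k` finite over `F(u)`, `F` algebraically closed in `k`, `Ω ⊇ k` algebraically closed, `ι₀` an embedding of
the algebraic closure of `F` in `Ω` into `ℂ_p`, with image `A`.
-/

set_option autoImplicit false

namespace Pool.Agent.Helper22.FF

open Pool.Agent.Helper14.BSC Polynomial Pool.Agent.Helper60.FF Pool.Agent.Helper18.FF3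

/-! ## Products over embeddings into `ℂ_p` -/

section

variable {p : ℕ} [Fact p.Prime]

/-- the field `E(σ K)` -/
noncomputable def Es {K : Type} [Field K] (E : IntermediateField ℚ_[p] ℂ_[p]) (σ : K →+* ℂ_[p]) :
    IntermediateField ℚ_[p] ℂ_[p] :=
  E ⊔ IntermediateField.adjoin ℚ_[p] (Set.range σ)

theorem le_Es {K : Type} [Field K] (E : IntermediateField ℚ_[p] ℂ_[p]) (σ : K →+* ℂ_[p]) : E ≤ Es E σ :=
  le_sup_left

theorem mem_Es {K : Type} [Field K] (E : IntermediateField ℚ_[p] ℂ_[p]) (σ : K →+* ℂ_[p]) (y : K) :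
    σ y ∈ Es E σ :=
  (le_sup_right : IntermediateField.adjoin ℚ_[p] (Set.range σ) ≤ Es E σ)
    (IntermediateField.subset_adjoin _ _ ⟨y, rfl⟩)

/-- `ρ` is the identity on `E` -/
def FixE {K : Type} [Field K] (E : IntermediateField ℚ_[p] ℂ_[p]) (σ : K →+* ℂ_[p])
    (ρ : Es E σ →ₐ[ℚ_[p]] ℂ_[p]) : Prop :=
  ∀ (x : ℂ_[p]) (hx : x ∈ Es E σ), x ∈ E → ρ ⟨x, hx⟩ = x

/-- `σ' = ρ ∘ σ` for an embedding `ρ` of `E(σ K)` over `E` -/
def Cj {K : Type} [Field K] (E : IntermediateField ℚ_[p] ℂ_[p]) (σ σ' : K →+* ℂ_[p])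
    (ρ : Es E σ →ₐ[ℚ_[p]] ℂ_[p]) : Prop :=
  FixE E σ ρ ∧ ∀ y : K, ρ ⟨σ y, mem_Es E σ y⟩ = σ' y

end

/-- ORB: descent of products over a set of embeddings stable under conjugation over `E`. -/
def ST_ORB : Prop :=
  ∀ (p : ℕ) [Fact p.Prime] (K : Type) [Field K] (E : IntermediateField ℚ_[p] ℂ_[p]),
    FiniteDimensional ℚ_[p] E → ∀ T : Finset (K →+* ℂ_[p]),
    (∀ σ ∈ T, FiniteDimensional ℚ_[p] (Es E σ)) →
    (∀ σ ∈ T, ∀ ρ : Es E σ →ₐ[ℚ_[p]] ℂ_[p], FixE E σ ρ → ∃ σ' ∈ T, Cj E σ σ' ρ) →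
    ∀ (W : (K →+* ℂ_[p]) → ℂ_[p]) (m : ℕ), 0 < m →
    (∀ σ ∈ T, ∃ w ∈ Es E σ, W σ = w ^ m) →
    (∀ σ ∈ T, ∀ σ' ∈ T, ∀ ρ : Es E σ →ₐ[ℚ_[p]] ℂ_[p], Cj E σ σ' ρ →
      ∀ hW : W σ ∈ Es E σ, W σ' = ρ ⟨W σ, hW⟩) →
    ∃ w ∈ E, ∏ σ ∈ T, W σ = w ^ m

/-! ## Places over conjugate embeddings, base change -/

/-- EQV: places over conjugate embeddings have conjugate values. -/
def ST_EQV : Prop :=
  ∀ (k Ω : Type) [Field k] [Field Ω] [Algebra k Ω] [CharZero k] [IsAlgClosed Ω] (D : Sec k Ω)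
    (p : ℕ) [Fact p.Prime] (σ σ' : k →+* ℂ_[p]) (E₁ : IntermediateField ℚ_[p] ℂ_[p]),
    FiniteDimensional ℚ_[p] E₁ → ∀ hσ : ∀ x, σ x ∈ E₁, ∀ ρ : E₁ →ₐ[ℚ_[p]] ℂ_[p],
    (∀ y : k, ρ ⟨σ y, hσ y⟩ = σ' y) → ∀ (P : Place D p σ) (P' : Place D p σ'), P.C = P'.C ∧
      ∀ (x : LL D) (hx : x ∈ P.C) (hx' : x ∈ P'.C),
        ∃ h₁ : P.φ ⟨x, hx⟩ ∈ E₁, P'.φ ⟨x, hx'⟩ = ρ ⟨P.φ ⟨x, hx⟩, h₁⟩

/-- FFS: the fixed field of the stabilizer of `S` is `k(S)`. -/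
def ST_FFS : Prop :=
  ∀ (k Ω : Type) [Field k] [Field Ω] [Algebra k Ω] [CharZero k] [IsAlgClosed Ω] (S : Set (Acl k Ω))
    (x : Acl k Ω), x ∈ FF S ↔ (x : Ω) ∈ IntermediateField.adjoin k ((fun a : Acl k Ω => (a : Ω)) '' S)

/-- BCS: base change of a section to `k' = k(S)`. -/
def ST_BCS : Prop :=
  ∀ (k Ω : Type) [Field k] [Field Ω] [Algebra k Ω] [CharZero k] [IsAlgClosed Ω] (D : Sec k Ω)
    (S : Set (Acl k Ω)) (k' : IntermediateField k Ω),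
    k' = IntermediateField.adjoin k ((fun a : Acl k Ω => (a : Ω)) '' S) →
    ∃ D' : Sec k' Ω, ∀ x : Ω, x ∈ LL D' ↔ x ∈ NN D S

/-- DWG: values at a place of a base change. -/
def ST_DWG : Prop :=
  ∀ (k k' Ω : Type) [Field k] [Field k'] [Field Ω] [Algebra k Ω] [Algebra k' Ω] [CharZero k]
    [IsAlgClosed Ω] (j : k →+* k') (D : Sec k Ω) (D' : Sec k' Ω),
    (∀ c, algebraMap k' Ω (j c) = algebraMap k Ω c) →
    (∀ x : Ω, x ∈ LL D → x ∈ LL D') →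
    ∀ (p : ℕ) [Fact p.Prime] (σ : k →+* ℂ_[p]) (σ' : k' →+* ℂ_[p]), (∀ c, σ' (j c) = σ c) →
    ∀ (P : Place D p σ) (P' : Place D' p σ') (x : LL D) (x' : LL D'), (x : Ω) = (x' : Ω) →
      (x ∈ P.C ↔ x' ∈ P'.C) ∧ ∀ (hx : x ∈ P.C) (hx' : x' ∈ P'.C), P.φ ⟨x, hx⟩ = P'.φ ⟨x', hx'⟩

/-! ## The field `k F̄` over `F̄(u)` -/

/-- the setting: `F` is algebraically closed in `k`, the structures are compatible -/
structure FU (F k Ω : Type) [Field F] [Field k] [Field Ω] [Algebra F Ω] [Algebra k Ω]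
    [Algebra (RatFunc F) k] : Prop where
  com : ∀ a : F, algebraMap F Ω a = algebraMap k Ω (algebraMap (RatFunc F) k (RatFunc.C a))
  cl : AC F k

section

variable (F k Ω : Type) [Field F] [Field k] [Field Ω] [Algebra F Ω] [Algebra k Ω]
  [Algebra (RatFunc F) k]

/-- the element `u` of `k` -/
noncomputable def uk : k := algebraMap (RatFunc F) k RatFunc.X

end

/-- LDJ: linear disjointness of `k` and `F̄(u)` over `F(u)`. -/
def ST_LDJ : Prop :=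
  ∀ (F k Ω : Type) [Field F] [CharZero F] [Field k] [Field Ω] [Algebra F Ω] [Algebra k Ω]
    [Algebra (RatFunc F) k] [FiniteDimensional (RatFunc F) k] [IsAlgClosed Ω], FU F k Ω →
    Transcendental (Acl F Ω) (algebraMap k Ω (uk F k)) ∧
    ∀ θ : k, IntermediateField.adjoin (RatFunc F) {θ} = ⊤ →
      (minpoly (IntermediateField.adjoin (Acl F Ω) {algebraMap k Ω (uk F k)})
        (algebraMap k Ω θ)).natDegree = Module.finrank (RatFunc F) k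

section

variable {F Ω : Type} [Field F] [Field Ω] [Algebra F Ω]

/-- the field `k(S)` for a set `S` of elements algebraic over `F` -/
noncomputable def kS (k : Type) [Field k] [Algebra k Ω] (S : Set (Acl F Ω)) : IntermediateField k Ω :=
  IntermediateField.adjoin k ((fun a : Acl F Ω => (a : Ω)) '' S)

theorem mem_kS {k : Type} [Field k] [Algebra k Ω] {S : Set (Acl F Ω)} {s : Acl F Ω} (hs : s ∈ S) :
    (s : Ω) ∈ kS k S :=
  IntermediateField.subset_adjoin _ _ ⟨s, hs, rfl⟩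

theorem kS_mono {k : Type} [Field k] [Algebra k Ω] {S S' : Set (Acl F Ω)} (h : S ⊆ S') :
    kS k S ≤ kS k S' :=
  IntermediateField.adjoin.mono _ _ _ (Set.image_mono h)

/-- `kS k Set.univ = k F̄` -/
theorem kS_univ {k : Type} [Field k] [Algebra k Ω] (S : Set (Acl F Ω)) :
    kS k S ≤ kS k (Set.univ : Set (Acl F Ω)) :=
  kS_mono (Set.subset_univ S)

variable {k : Type} [Field k] [Algebra k Ω] [Algebra (RatFunc F) k] {p : ℕ} [Fact p.Prime]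

/-- the embeddings of `k(S)` into `ℂ_p` which are `ι₀` on `F` and `S` and map `u` to `τ` -/
def TT (k : Type) [Field k] [Algebra k Ω] [Algebra (RatFunc F) k] (ι₀ : Acl F Ω →+* ℂ_[p])
    (S : Set (Acl F Ω)) (τ : ℂ_[p]) : Set (kS k S →+* ℂ_[p]) :=
  {σ | (∀ a : F, σ (algebraMap k (kS k S) (algebraMap (RatFunc F) k (RatFunc.C a))) =
      ι₀ (algebraMap F (Acl F Ω) a)) ∧
    (∀ (s : Acl F Ω) (hs : s ∈ S), σ ⟨(s : Ω), mem_kS hs⟩ = ι₀ s) ∧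
    σ (algebraMap k (kS k S) (uk F k)) = τ}

/-- the embeddings of `k` into `ℂ_p` which are `ι₀` on `F` and map `u` to `τ` -/
def T0 (k : Type) [Field k] [Algebra (RatFunc F) k] (ι₀ : Acl F Ω →+* ℂ_[p]) (τ : ℂ_[p]) :
    Set (k →+* ℂ_[p]) :=
  {σ | (∀ a : F, σ (algebraMap (RatFunc F) k (RatFunc.C a)) = ι₀ (algebraMap F (Acl F Ω) a)) ∧
    σ (uk F k) = τ}

end

/-- EFD: the fields `E(σ k(S))` are finite over `ℚ_p`, and `σ k` too. -/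
def ST_EFD : Prop :=
  ∀ (F k Ω : Type) [Field F] [CharZero F] [Field k] [Field Ω] [Algebra F Ω] [Algebra k Ω]
    [Algebra (RatFunc F) k] [FiniteDimensional (RatFunc F) k] [IsAlgClosed Ω], FU F k Ω →
    ∀ (p : ℕ) [Fact p.Prime] (ι₀ : Acl F Ω →+* ℂ_[p]) (E : IntermediateField ℚ_[p] ℂ_[p]),
    FiniteDimensional ℚ_[p] E → (∀ a : F, ι₀ (algebraMap F (Acl F Ω) a) ∈ E) → ∀ τ ∈ E,
    (∀ (S : Set (Acl F Ω)), S.Finite → (∀ s ∈ S, ι₀ s ∈ E) → ∀ σ ∈ TT k ι₀ S τ,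
      FiniteDimensional ℚ_[p] (Es E σ)) ∧
    ∀ σ ∈ T0 k ι₀ τ, FiniteDimensional ℚ_[p] (Es E σ)

/-- NORM: the norm of `k F̄` over `F̄(u) = A(u)`, `A = ι₀ F̄`. -/
def ST_NORM : Prop :=
  ∀ (F k Ω : Type) [Field F] [CharZero F] [Field k] [Field Ω] [Algebra F Ω] [Algebra k Ω]
    [Algebra (RatFunc F) k] [FiniteDimensional (RatFunc F) k] [IsAlgClosed Ω], FU F k Ω →
    ∀ (p : ℕ) [Fact p.Prime] (ι₀ : Acl F Ω →+* ℂ_[p]) (A : Subfield ℂ_[p])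
    (hA : ∀ x, x ∈ A ↔ ∃ a, ι₀ a = x) (ι : F →+* A),
    (∀ a, ((ι a : A) : ℂ_[p]) = ι₀ (algebraMap F (Acl F Ω) a)) →
    ∃ (j : RatFunc A →+* Ω) (N : kS k (Set.univ : Set (Acl F Ω)) → RatFunc A),
      j RatFunc.X = algebraMap k Ω (uk F k) ∧
      (∀ a : Acl F Ω, j (RatFunc.C ⟨ι₀ a, (hA _).2 ⟨a, rfl⟩⟩) = (a : Ω)) ∧
      (∀ c, j c ∈ kS k (Set.univ : Set (Acl F Ω))) ∧
      (∀ c : RatFunc F, j (mp ι c) = algebraMap k Ω (algebraMap (RatFunc F) k c)) ∧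
      (∀ x y, N (x * y) = N x * N y) ∧ (∀ x, x ≠ 0 → N x ≠ 0) ∧
      (∀ x : k, N (algebraMap k (kS k (Set.univ : Set (Acl F Ω))) x) =
        mp ι (Algebra.norm (RatFunc F) x)) ∧
      (∀ E : IntermediateField ℚ_[p] ℂ_[p], (∀ a : F, ι₀ (algebraMap F (Acl F Ω) a) ∈ E) →
        ∀ S : Set (Acl F Ω), (∀ s ∈ S, ι₀ s ∈ E) → ∀ (x : Ω) (hx : x ∈ kS k S),
          Ov A E (N ⟨x, kS_univ S hx⟩)) ∧
      ∀ (τ : ℂ_[p]), τ ∉ A → ∀ S : Set (Acl F Ω), ∃ hf : (TT k ι₀ S τ).Finite,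
        hf.toFinset.card = Module.finrank (RatFunc F) k ∧
        (∀ (x : Ω) (hx : x ∈ kS k S), ev A τ (N ⟨x, kS_univ S hx⟩) =
          ∏ σ ∈ hf.toFinset, σ ⟨x, hx⟩) ∧
        (∀ σ ∈ T0 k ι₀ τ, ∃! σ' : kS k S →+* ℂ_[p],
          σ' ∈ TT k ι₀ S τ ∧ ∀ c : k, σ' (algebraMap k (kS k S) c) = σ c) ∧
        ∀ σ' ∈ TT k ι₀ S τ, σ'.comp (algebraMap k (kS k S)) ∈ T0 k ι₀ τ

end Pool.Agent.Helper22.FF
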