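import Pool.Agent.Helper22.FF.PIA
import Pool.Agent.Helper2.FFI.KMR
import Pool.Agent.Helper20.FFI.LDJ
import Pool.Agent.Helper27.FFI.FFS
import Pool.Agent.Helper30.FFI.BCS
import Pool.Agent.Helper30.FFI.KU
import Pool.Agent.Helper38.FFI.CHE
import Pool.Agent.Helper38.FFI.ORB
import Pool.Agent.Helper50.FFI.CF
import Pool.Agent.Helper53.FFI.CTB
import Pool.Agent.Helper53.FFI.EQV
import Pool.Agent.Helper59.FFI.NORM
import Pool.Agent.Helper7.FFI.VL
import Pool.Agent.Helper8.FFI.EFD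
import Pool.Agent.Helper8.FFI.PSI

/-!
# Part I: everything together
-/

set_option autoImplicit false

namespace Pool.Agent.Helper22.FF

open Pool.Agent.Helper14.BSC Polynomial Pool.Agent.Helper60.FF Pool.Agent.Helper18.FF3

theorem pi_all (hEMB : ST_EMB) (hBOT : ST_BOT) (hKUM : ST_KUM) (hROOT : ST_ROOT) (hRK : ST_RK)
    (hPL : Pool.Agent.Helper22.TW.ST_PL) (hUNQ : Pool.Agent.Helper22.TW.ST_UNQ)
    (hRPL : Pool.Agent.Helper22.TW.ST_RPL) (hEVH : ST_EVH) (hOVF : ST_OVF) : ST_PI :=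
  st_PI hEMB hBOT (st_NORM st_LDJ hEVH hOVF) st_CF (st_KU st_FFS hKUM hROOT)
    (st_CHE st_ORB (st_EQV hPL hUNQ) st_EFD (st_PSI hUNQ) hRK hPL)
    (st_KMR st_ORB (st_EQV hPL hUNQ) st_EFD st_BCS (st_VL (st_PSI hUNQ) hRPL) hRK hBOT hPL) st_CTB

end Pool.Agent.Helper22.FF
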