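import Pool.Agent.Helper22.FF.Abs

/-!
# Part I of the theorem on birational sections over function fields: the section part
-/

set_option autoImplicit false

namespace Pool.Agent.Helper22.FF

open Pool.Agent.Helper14.BSC Polynomial Pool.Agent.Helper60.FF Pool.Agent.Helper18.FF3

/-! ## Values and the polynomial `χ` -/

section

variable {k Ω : Type} [Field k] [Field Ω] [Algebra k Ω] {p : ℕ} [Fact p.Prime]

open Classical in
/-- the factor `X - t(σ)` of the polynomial of the values (`1` if the value of `t` over `σ` is infinite) -/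
noncomputable def psi (D : Sec k Ω) (t : LL D) (σ : k →+* ℂ_[p]) : Polynomial ℂ_[p] :=
  if h : ∃ P : Place D p σ, t ∈ P.C then X - C (h.choose.φ ⟨t, h.choose_spec⟩) else 1

open Classical in
/-- the polynomial whose roots are the finite values of `t` over the embeddings in `T0` -/
noncomputable def chi {F : Type} [Field F] [Algebra F Ω] [Algebra (RatFunc F) k] (D : Sec k Ω)
    (t : LL D) (ι₀ : Acl F Ω →+* ℂ_[p]) (τ : ℂ_[p]) : Polynomial ℂ_[p] :=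
  if h : (T0 k ι₀ τ).Finite then ∏ σ ∈ h.toFinset, psi D t σ else 1

theorem psi_ne (D : Sec k Ω) (t : LL D) (σ : k →+* ℂ_[p]) : psi D t σ ≠ 0 ∧ (psi D t σ).natDegree ≤ 1 := by
  unfold psi
  split_ifs with h
  · exact ⟨X_sub_C_ne_zero _, (natDegree_X_sub_C _).le⟩
  · exact ⟨one_ne_zero, by rw [natDegree_one]; exact Nat.zero_le _⟩

/-- a set of elements algebraic over `F` as a set of elements algebraic over `k` -/
def upS {F : Type} [Field F] [Algebra F Ω] (k : Type) [Field k] [Algebra k Ω] (S : Set (Acl F Ω)) :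
    Set (Acl k Ω) :=
  {a | ∃ s ∈ S, (s : Ω) = (a : Ω)}

theorem upS_mono {F : Type} [Field F] [Algebra F Ω] {S S' : Set (Acl F Ω)} (h : S ⊆ S') :
    upS k S ⊆ upS k S' := by
  rintro a ⟨s, hs, hsa⟩
  exact ⟨s, h hs, hsa⟩

end

/-- PSI: the factor `psi` in terms of an arbitrary place. -/
def ST_PSI : Prop :=
  ∀ (k Ω : Type) [Field k] [Field Ω] [Algebra k Ω] [CharZero k] [IsAlgClosed Ω] (D : Sec k Ω)
    (t : LL D) (p : ℕ) [Fact p.Prime] (σ : k →+* ℂ_[p]) (P : Place D p σ),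
    (t ∉ P.C → psi D t σ = 1) ∧ ∀ h : t ∈ P.C, psi D t σ = X - C (P.φ ⟨t, h⟩)

/-- VL: value of `(t - c) / (t - c')` at a place of a base change. -/
def ST_VL : Prop :=
  ∀ (k Ω : Type) [Field k] [Field Ω] [Algebra k Ω] [CharZero k] [IsAlgClosed Ω] (D : Sec k Ω)
    (k' : IntermediateField k Ω) (D' : Sec k' Ω), (∀ x : Ω, x ∈ LL D → x ∈ LL D') →
    ∀ (t : LL D) (t' : LL D'), (t : Ω) = (t' : Ω) → (∀ c : k', t' ≠ algebraMap k' (LL D') c) →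
    ∀ (p : ℕ) [Fact p.Prime] (σ' : k' →+* ℂ_[p]) (P' : Place D' p σ') (c c' : k'),
    (psi D t (σ'.comp (algebraMap k k'))).eval (σ' c) ≠ 0 →
    (psi D t (σ'.comp (algebraMap k k'))).eval (σ' c') ≠ 0 →
    ∃ h : (t' - algebraMap k' (LL D') c) / (t' - algebraMap k' (LL D') c') ∈ P'.C,
      P'.φ ⟨_, h⟩ ≠ 0 ∧
      P'.φ ⟨_, h⟩ * (psi D t (σ'.comp (algebraMap k k'))).eval (σ' c') =
        (psi D t (σ'.comp (algebraMap k k'))).eval (σ' c)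

/-- KU: Kummer classes over `k(S)`. -/
def ST_KU : Prop :=
  ∀ (F k Ω : Type) [Field F] [CharZero F] [Field k] [CharZero k] [Field Ω] [Algebra F Ω] [Algebra k Ω]
    [Algebra (RatFunc F) k] [FiniteDimensional (RatFunc F) k] [IsAlgClosed Ω], FU F k Ω →
    ∀ (D : Sec k Ω) (S : Set (Acl F Ω)),
    (∀ e : Ω, e ∈ kS k S → e ∈ NN D (upS k S)) ∧
    (∀ x : Ω, x ∈ NN D (upS k S) → x ≠ 0 → ∀ m : ℕ, 0 < m →
      ∃ e g : Ω, e ∈ kS k S ∧ e ≠ 0 ∧ g ∈ NN D (upS k S) ∧ g ≠ 0 ∧ x = e * g ^ m) ∧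
    (∀ y : Ω, y ∈ NN D (upS k S) → ∀ m : ℕ, 0 < m → y ^ m ∈ kS k S → y ∈ kS k S)

/-- CF: the coefficients of a rational function over `A`. -/
def ST_CF : Prop :=
  ∀ (F k Ω : Type) [Field F] [CharZero F] [Field k] [CharZero k] [Field Ω] [Algebra F Ω] [Algebra k Ω]
    [Algebra (RatFunc F) k] [FiniteDimensional (RatFunc F) k] [IsAlgClosed Ω], FU F k Ω →
    ∀ (p : ℕ) [Fact p.Prime] (ι₀ : Acl F Ω →+* ℂ_[p]) (A : Subfield ℂ_[p])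
    (hA : ∀ x, x ∈ A ↔ ∃ a, ι₀ a = x) (ι : F →+* A),
    (∀ a, ((ι a : A) : ℂ_[p]) = ι₀ (algebraMap F (Acl F Ω) a)) →
    ∀ (j : RatFunc A →+* Ω), j RatFunc.X = algebraMap k Ω (uk F k) →
      (∀ a : Acl F Ω, j (RatFunc.C ⟨ι₀ a, (hA _).2 ⟨a, rfl⟩⟩) = (a : Ω)) →
    ∀ c : RatFunc A, ∃ S : Set (Acl F Ω), S.Finite ∧
      (∀ E : IntermediateField ℚ_[p] ℂ_[p], Ov A E c → ∀ s ∈ S, ι₀ s ∈ E) ∧
      (∀ c₀ : RatFunc F, c = mp ι c₀ → ∀ s ∈ S, ∃ a : F, algebraMap F (Acl F Ω) a = s) ∧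
      ∀ S' : Set (Acl F Ω), S ⊆ S' → j c ∈ kS k S' ∧
        ∀ τ : ℂ_[p], τ ∉ A → ∀ σ ∈ TT k ι₀ S' τ, ∀ h : j c ∈ kS k S', σ ⟨j c, h⟩ = ev A τ c

/-- CHE: `χ` is defined over `E`. -/
def ST_CHE : Prop :=
  ∀ (F k Ω : Type) [Field F] [CharZero F] [Field k] [CharZero k] [Field Ω] [Algebra F Ω] [Algebra k Ω]
    [Algebra (RatFunc F) k] [FiniteDimensional (RatFunc F) k] [IsAlgClosed Ω], FU F k Ω →
    ∀ (D : Sec k Ω) (t : LL D) (p : ℕ) [Fact p.Prime] (ι₀ : Acl F Ω →+* ℂ_[p])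
    (E : IntermediateField ℚ_[p] ℂ_[p]), FiniteDimensional ℚ_[p] E →
    (∀ a : F, ι₀ (algebraMap F (Acl F Ω) a) ∈ E) → ∀ τ ∈ E, (T0 k ι₀ τ).Finite →
    ∀ i, (chi D t ι₀ τ).coeff i ∈ E

/-- KMR: the Kummer relation. -/
def ST_KMR : Prop :=
  ∀ (F k Ω : Type) [Field F] [CharZero F] [Field k] [CharZero k] [Field Ω] [Algebra F Ω] [Algebra k Ω]
    [Algebra (RatFunc F) k] [FiniteDimensional (RatFunc F) k] [IsAlgClosed Ω], FU F k Ω →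
    ∀ (D : Sec k Ω) (t : LL D), (∀ c : k, t ≠ algebraMap k (LL D) c) →
    ∀ (p : ℕ) [Fact p.Prime] (ι₀ : Acl F Ω →+* ℂ_[p])
    (E : IntermediateField ℚ_[p] ℂ_[p]), FiniteDimensional ℚ_[p] E →
    (∀ a : F, ι₀ (algebraMap F (Acl F Ω) a) ∈ E) → ∀ τ ∈ E,
    ∀ S : Set (Acl F Ω), S.Finite → (∀ s ∈ S, ι₀ s ∈ E) →
    ∀ hf : (TT k ι₀ S τ).Finite,
    (∀ G : (k →+* ℂ_[p]) → Polynomial ℂ_[p], ∀ h₀ : (T0 k ι₀ τ).Finite,
      ∏ σ ∈ h₀.toFinset, G σ = ∏ σ' ∈ hf.toFinset, G (σ'.comp (algebraMap k (kS k S)))) →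
    (T0 k ι₀ τ).Finite →
    ∀ (c c' e e' : kS k S) (g g' : Ω) (γ γ' : ℂ_[p]) (m : ℕ), 0 < m → e ≠ 0 → e' ≠ 0 →
    g ∈ NN D (upS k S) → g' ∈ NN D (upS k S) →
    (t : Ω) - c = e * g ^ m → (t : Ω) - c' = e' * g' ^ m →
    (∀ σ' ∈ TT k ι₀ S τ, σ' c = γ) → (∀ σ' ∈ TT k ι₀ S τ, σ' c' = γ') →
    (chi D t ι₀ τ).eval γ ≠ 0 → (chi D t ι₀ τ).eval γ' ≠ 0 →
    ∃ w ∈ E, w ≠ 0 ∧ (chi D t ι₀ τ).eval γ * ∏ σ' ∈ hf.toFinset, σ' e' =
      (chi D t ι₀ τ).eval γ' * (∏ σ' ∈ hf.toFinset, σ' e) * w ^ m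

/-- CTB: countability. -/
def ST_CTB : Prop :=
  ∀ (F Ω : Type) [Field F] [CharZero F] [Field Ω] [Algebra F Ω], (⊤ : IntermediateField ℚ F).FG →
    Countable (Acl F Ω)

end Pool.Agent.Helper22.FF
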